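import Pool.Agent.H.MP_530d8e_an.A

namespace Pool.Agent.Results.MP_530d8e_an.Holds

open scoped RealInnerProductSpace

/-- The graph of `f : ℝⁿ → ℝ` in `ℝⁿ⁺¹ = ℝⁿ × ℝ` with the Euclidean metric. -/
def graph {n : ℕ} (f : EuclideanSpace ℝ (Fin n) → ℝ) :
    Set (WithLp 2 (EuclideanSpace ℝ (Fin n) × ℝ)) := {p | p.snd = f p.fst}

/-- `f` is horizontally rigid. -/
def HRigid {n : ℕ} (f : EuclideanSpace ℝ (Fin n) → ℝ) : Prop :=
  ∀ c : ℝ, 0 < c →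
    ∃ φ : WithLp 2 (EuclideanSpace ℝ (Fin n) × ℝ) ≃ᵢ WithLp 2 (EuclideanSpace ℝ (Fin n) × ℝ),
      φ '' graph f = graph fun x => f (c • x)

theorem result (n : ℕ) (f : EuclideanSpace ℝ (Fin n) → ℝ) (hf : Continuous f) (h : HRigid f) :
    ∃ (a : ℝ) (b : EuclideanSpace ℝ (Fin n)), ∀ x, f x = a + ⟪b, x⟫ := by
  refine Pool.Agent.H.MP_530d8e_an.main f hf fun c hc => ?_
  obtain ⟨φ, hφ⟩ := h c hc
  refine ⟨φ, fun p => ?_⟩
  have : p ∈ graph f ↔ φ p ∈ φ '' graph f := (φ.injective.mem_set_image).symm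
  rw [hφ] at this
  exact this

end Pool.Agent.Results.MP_530d8e_an.Holds
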